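import Pool.Agent.Helper382.NodecD

set_option autoImplicit false

open Set Topology Filter

namespace Pool.Agent.Results.MP_39acbb_lc.CountableGroups

/-- An ultrafilter on `ℕ` is rapid if it is nonprincipal and for every `f : ℕ → ℕ` it has a member
`A` with at most `n` elements below `f n`, for every `n`. -/
def Rapid (U : Ultrafilter ℕ) : Prop :=
  (∀ n : ℕ, {n} ∉ U) ∧ ∀ f : ℕ → ℕ, ∃ A ∈ U, ∀ n : ℕ, (A ∩ Iio (f n)).ncard ≤ n

/-- There is no rapid ultrafilter on `ℕ` (consistent with ZFC: Miller 1980, it holds in Laver's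
model of the Borel Conjecture). -/
def NoRapid : Prop := ∀ U : Ultrafilter ℕ, ¬ Rapid U

/-- **Theorem.** Assume that there are no rapid ultrafilters. If a Hausdorff topological group `G`
has a countable non-discrete subgroup, then `G` has a nonempty nowhere dense subset without
isolated points. -/
theorem result : NoRapid → ∀ (G : Type*) [Group G] [TopologicalSpace G] [IsTopologicalGroup G]
    [T2Space G] (H : Subgroup G), Countable H → ¬ DiscreteTopology H →
    ∃ A : Set G, A.Nonempty ∧ IsNowhereDense A ∧
      ∀ a ∈ A, ¬ ∃ U : Set G, IsOpen U ∧ U ∩ A = {a} := by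
  intro hNR G _ _ _ _ H hHc hHd
  apply Pool.Agent.H382Nodec.good_of_subspace (H : Set G)
  exact Pool.Agent.H382Nodec.good_countable (G := H) hNR
    (Pool.Agent.H382Nodec.neBot_of_not_discrete hHd)

end Pool.Agent.Results.MP_39acbb_lc.CountableGroups
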